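import Pool.Agent.TH831.NA.NA9

/-!
# Tame representations of any dimension over arbitrary Noetherian local rings

Let `p` be a prime, `p ^ m > 2`, and let `S` be a finite set of primes `l ≠ p` with
`p ^ (m + 1) ∤ l - 1`. Let `T` be the set of the `l ∈ S` with `p ^ m ∣ l - 1`, let
`λ l j = χ j (l)` be the linking numbers (for nontrivial `χ j : (ℤ/j)ˣ → ℤ/p`) and
`u l = (l - 1) / p ^ m` modulo `p`. Suppose that for every subset `J` of `T` with at least three
elements (at least five, if `p = 2`) there are no nonzero nilpotent `n × n` matrices `M l`,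
`l ∈ J`, over a field of characteristic `p`, such that the commutator of `∑ j, λ l j • M j` and
`M l` is `u l • M l`.

Let `A` be any Noetherian local ring of residue characteristic `p` with its adic topology. Then
every continuous representation `Gal(ℚbar/ℚ) → GL_n(A)` which is unramified outside `S`, and
trivial modulo `p ^ m` on the inertia groups at the primes in `S`, has finite image. It is trivial
if `p ^ (m + 1) a = 0` implies `p ^ m a = 0` in `A`.

Explicit conditions on the linking numbers for rings of integers of `p`-adic fields: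
`MP_f68ac8_nt.TameAllRanks`.
-/

set_option autoImplicit false

open NumberField IsLocalRing

namespace Pool.Agent.Results.MP_924d78_nt.AllDimensions

/-- The representation `ρ` of the absolute Galois group of `ℚ` is unramified at the prime ideal `P`
of the ring of all algebraic integers: the inertia group at `P` acts trivially. -/
def UnramifiedAt {n : ℕ} {A : Type} [CommRing A] (ρ : Gal(AlgebraicClosure ℚ/ℚ) →* GL (Fin n) A)
    (P : Ideal (𝓞 (AlgebraicClosure ℚ))) : Prop :=
  ∀ τ : Gal(AlgebraicClosure ℚ/ℚ), (∀ x : 𝓞 (AlgebraicClosure ℚ), τ • x - x ∈ P) → ρ τ = 1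

/-- `ρ` is unramified at all primes that do not lie above a prime number in `S` (in particular at
the primes above `p`, if `p ∉ S`). -/
def UnramifiedOutside {n : ℕ} {A : Type} [CommRing A] (S : Finset ℕ)
    (ρ : Gal(AlgebraicClosure ℚ/ℚ) →* GL (Fin n) A) : Prop :=
  ∀ P : Ideal (𝓞 (AlgebraicClosure ℚ)), P.IsMaximal →
    (∀ l ∈ S, (l : 𝓞 (AlgebraicClosure ℚ)) ∉ P) → UnramifiedAt ρ P

/-- The inertia groups at the primes which lie above a prime number in `S` act trivially modulo
`p ^ m`. -/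
def InertiaTrivialMod {n : ℕ} {A : Type} [CommRing A] (p m : ℕ) (S : Finset ℕ)
    (ρ : Gal(AlgebraicClosure ℚ/ℚ) →* GL (Fin n) A) : Prop :=
  ∀ P : Ideal (𝓞 (AlgebraicClosure ℚ)), P.IsMaximal →
    (∃ l ∈ S, (l : 𝓞 (AlgebraicClosure ℚ)) ∈ P) →
    ∀ τ : Gal(AlgebraicClosure ℚ/ℚ), (∀ x : 𝓞 (AlgebraicClosure ℚ), τ • x - x ∈ P) →
      ∀ i j, (p : A) ^ m ∣ ((ρ τ : Matrix (Fin n) (Fin n) A) - 1) i j

/-- The linking number `λ l j` of the distinct primes `l` and `j`: the value of the homomorphism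
`χ j : (ℤ/j)ˣ → ℤ/p` at the class of `l` (and `0` if `j` divides `l`, in particular if `l = j`). -/
noncomputable def linking {p : ℕ} (χ : ∀ j : ℕ, (ZMod j)ˣ →* Multiplicative (ZMod p))
    (l j : ℕ) : ZMod p :=
  open Classical in if h : Nat.Coprime l j then
    Multiplicative.toAdd (χ j (ZMod.unitOfCoprime l h)) else 0

/-- The class `u l` of `(l - 1) / p ^ m` modulo `p`. -/
def level (p m l : ℕ) : ZMod p := (((l - 1) / p ^ m : ℕ) : ZMod p)

/-- Over no field of characteristic `p` there are nonzero nilpotent `n × n` matrices `M l`, one for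
each `l ∈ J`, such that the commutator of `∑ j ∈ J, λ l j • M j` and `M l` is `u l • M l` for all
`l ∈ J`. -/
def NoTuple {p : ℕ} (n m : ℕ) (χ : ∀ j : ℕ, (ZMod j)ˣ →* Multiplicative (ZMod p))
    (J : Finset ℕ) : Prop :=
  ∀ (K : Type) [Field K] [Algebra (ZMod p) K] (M : ℕ → Matrix (Fin n) (Fin n) K),
    (∀ l ∈ J, IsNilpotent (M l) ∧ M l ≠ 0) →
    (∀ l ∈ J, (∑ j ∈ J, linking χ l j • M j) * M l - M l * (∑ j ∈ J, linking χ l j • M j) =
      level p m l • M l) → False

theorem eq_one_of_ne_zero : ∀ z : ZMod 2, z ≠ 0 → z = 1 := by decide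

theorem result (p : ℕ) [Fact p.Prime] (m n : ℕ) (hm : 2 < p ^ m) (S : Finset ℕ)
    (hS : ∀ l ∈ S, l.Prime ∧ l ≠ p ∧ ¬ p ^ (m + 1) ∣ l - 1)
    (χ : ∀ j : ℕ, (ZMod j)ˣ →* Multiplicative (ZMod p))
    (hχ : ∀ l ∈ S, p ∣ l - 1 → ∃ x, χ l x ≠ 1)
    (hJ : ∀ J : Finset ℕ, J ⊆ S → (∀ l ∈ J, p ^ m ∣ l - 1) → 3 ≤ J.card →
      (p = 2 → 5 ≤ J.card) → NoTuple n m χ J)
    (A : Type) [CommRing A] [IsLocalRing A] [IsNoetherianRing A]
    [TopologicalSpace A] (hA : IsAdic (maximalIdeal A)) (hpA : (p : A) ∈ maximalIdeal A)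
    (ρ : Gal(AlgebraicClosure ℚ/ℚ) →* GL (Fin n) A) (hρ : Continuous ρ)
    (hur : UnramifiedOutside S ρ) (hI : InertiaTrivialMod p m S ρ) :
    (Set.range ρ).Finite ∧
    ((∀ a : A, (p : A) ^ (m + 1) * a = 0 → (p : A) ^ m * a = 0) → ∀ g, ρ g = 1) := by
  classical
  have hp : p.Prime := Fact.out
  have hm1 : 1 ≤ m := by
    rcases Nat.eq_zero_or_pos m with h | h
    · rw [h, pow_zero] at hm
      omega
    · exact h
  have hdvd : ∀ l, p ^ m ∣ l - 1 → p ∣ l - 1 := fun l h => (dvd_pow_self p (by omega)).trans h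
  set T0 := S.filter (fun l => p ^ m ∣ l - 1) with hT0
  have hT0mem : ∀ l ∈ T0, l ∈ S ∧ p ^ m ∣ l - 1 := fun l hl => Finset.mem_filter.1 hl
  have hlk : ∀ l j, linking χ l j = W569.TG.lk χ l j := fun l j => rfl
  have hu : ∀ l ∈ T0, (((l - 1) / p ^ m : ℕ) : ZMod p) ≠ 0 := by
    intro l hl
    obtain ⟨hlS, hlm⟩ := hT0mem l hl
    rw [Ne, ZMod.natCast_eq_zero_iff]
    rintro ⟨d, hd⟩
    apply (hS l hlS).2.2
    refine ⟨d, ?_⟩
    rw [pow_succ, mul_assoc, ← hd, Nat.mul_div_cancel' hlm]
  -- no solutions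
  have hNo : ∀ J ⊆ T0, J.Nonempty → TH831.NA.NoSol n (W569.TG.lk χ)
      (fun l => (((l - 1) / p ^ m : ℕ) : ZMod p)) J := by
    refine TH831.NA.noSol_ind fun J hJT hJne ih => ?_
    have huJ : ∀ l ∈ J, (fun l => (((l - 1) / p ^ m : ℕ) : ZMod p)) l ≠ 0 := fun l hl =>
      hu l (hJT hl)
    by_cases h3 : 3 ≤ J.card
    · by_cases h5 : p = 2 → 5 ≤ J.card
      · have h := hJ J (fun l hl => (hT0mem l (hJT hl)).1) (fun l hl => (hT0mem l (hJT hl)).2) h3 h5
        intro K iK iA M hM hrel
        refine h K M hM fun l hl => ?_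
        have h1 := hrel l hl
        rw [Finset.sum_mul, Finset.mul_sum, ← Finset.sum_sub_distrib]
        refine Eq.trans (Finset.sum_congr rfl fun j _ => ?_) h1
        rw [smul_mul_assoc, mul_smul_comm, ← smul_sub, hlk]
      · -- `p = 2` and at most four primes
        push Not at h5
        obtain ⟨rfl, h5⟩ := h5
        have hm2 : 2 ≤ m := by
          by_contra hcon
          have h1 : m = 1 := by omega
          rw [h1] at hm
          norm_num at hm
        have hz2 := eq_one_of_ne_zero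
        have hker : ∀ l ∈ T0, ∀ x, χ l x = 1 ↔ x ^ ((l - 1) / 2) = 1 := fun l hl x =>
          TH831.NA.char_ker (hS l (hT0mem l hl).1).1 (hdvd l (hT0mem l hl).2)
            (hχ l (hT0mem l hl).1 (hdvd l (hT0mem l hl).2)) x
        have hlk0 : ∀ l ∈ T0, ∀ j ∈ T0, j ≠ l →
            (W569.TG.lk χ l j = 0 ↔ IsSquare (l : ZMod j)) := by
          intro l hl j hj hjl
          rw [TH146.FM.lk_eq_zero_iff (hS j (hT0mem j hj).1).1 (hdvd j (hT0mem j hj).2)
            (hS l (hT0mem l hl).1).1 (Ne.symm hjl) (hker j hj), isSquare_iff_exists_sq]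
          exact ⟨fun ⟨y, hy⟩ => ⟨y, hy.symm⟩, fun ⟨y, hy⟩ => ⟨y, hy.symm⟩⟩
        have hmod4 : ∀ l ∈ T0, l % 4 = 1 := by
          intro l hl
          obtain ⟨hlS, hlm⟩ := hT0mem l hl
          have h4 : 4 ∣ l - 1 := by
            have : (2 : ℕ) ^ 2 ∣ 2 ^ m := pow_dvd_pow 2 hm2
            exact this.trans hlm
          have := (hS l hlS).1.two_le
          omega
        have hsym0 : ∀ l ∈ J, ∀ j ∈ J, W569.TG.lk χ l j = W569.TG.lk χ j l := by
          intro l hl j hj
          by_cases hjl : j = l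
          · rw [hjl]
          have i1 : Fact l.Prime := ⟨(hS l (hT0mem l (hJT hl)).1).1⟩
          have i2 : Fact j.Prime := ⟨(hS j (hT0mem j (hJT hj)).1).1⟩
          have h1 := hlk0 l (hJT hl) j (hJT hj) hjl
          have h2 := hlk0 j (hJT hj) l (hJT hl) (Ne.symm hjl)
          rw [ZMod.exists_sq_eq_prime_iff_of_mod_four_eq_one (hmod4 j (hJT hj))
            (hS l (hT0mem l (hJT hl)).1).2.1, ← h2] at h1
          by_cases h0 : W569.TG.lk χ l j = 0
          · rw [h0, h1.1 h0]
          · rw [hz2 _ h0, hz2 _ fun h => h0 (h1.2 h)]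
        have hsym : ∀ l ∈ J, ∀ j ∈ J, (fun _ : ℕ => (1 : ZMod 2)) l * W569.TG.lk χ l j =
            (fun _ : ℕ => (1 : ZMod 2)) j * W569.TG.lk χ j l := by
          intro l hl j hj
          rw [hsym0 l hl j hj]
        have hu1 : ∀ l ∈ J, (((l - 1) / 2 ^ m : ℕ) : ZMod 2) = 1 := fun l hl =>
          hz2 _ (huJ l hl)
        obtain ⟨l, hl⟩ := hJne
        set X := (J.erase l).filter (fun j => W569.TG.lk χ l j = 1) with hX
        set Y := (J.erase l).filter (fun j => ¬ W569.TG.lk χ l j = 1) with hY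
        have hcard : X.card + Y.card = J.card - 1 := by
          rw [hX, hY, Finset.card_filter_add_card_filter_not, Finset.card_erase_of_mem hl]
        have h1 : X.card ≤ 1 ∨ Y.card ≤ 1 := by omega
        rcases h1 with h1 | h1
        · refine TH831.NA.noSol_row huJ hsym (t := fun _ => 0) hl ?_
          rintro i ⟨hi, hil, hi'⟩ j ⟨hj, hjl, hj'⟩
          rw [zero_mul] at hi' hj'
          exact Finset.card_le_one.1 h1 i
            (Finset.mem_filter.2 ⟨Finset.mem_erase.2 ⟨hil, hi⟩, hz2 _ hi'⟩) j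
            (Finset.mem_filter.2 ⟨Finset.mem_erase.2 ⟨hjl, hj⟩, hz2 _ hj'⟩)
        · refine TH831.NA.noSol_row huJ hsym (t := fun _ => 1) hl ?_
          rintro i ⟨hi, hil, hi'⟩ j ⟨hj, hjl, hj'⟩
          simp only [hu1 i hi, hu1 j hj, mul_one] at hi' hj'
          exact Finset.card_le_one.1 h1 i
            (Finset.mem_filter.2 ⟨Finset.mem_erase.2 ⟨hil, hi⟩, hi'⟩) j
            (Finset.mem_filter.2 ⟨Finset.mem_erase.2 ⟨hjl, hj⟩, hj'⟩)
    · -- at most two primes
      obtain ⟨l, hl⟩ := hJne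
      refine TH831.NA.noSol_row huJ (w := fun _ => 0) (t := fun _ => 0) (fun i _ j _ => ?_) hl ?_
      · rw [zero_mul, zero_mul]
      · rintro i ⟨hi, hil, -⟩ j ⟨hj, hjl, -⟩
        by_contra hij
        apply h3
        have h4 : ({l, i, j} : Finset ℕ).card = 3 := by
          rw [Finset.card_insert_of_notMem (by simp [Ne.symm hil, Ne.symm hjl]),
            Finset.card_insert_of_notMem (by simp [hij]), Finset.card_singleton]
        rw [← h4]
        apply Finset.card_le_card
        intro x hx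
        simp only [Finset.mem_insert, Finset.mem_singleton] at hx
        rcases hx with rfl | rfl | rfl
        · exact hl
        · exact hi
        · exact hj
  have hcts := TH831.NA.cts_memN hA hρ
  have hur' : ∀ g ∈ TH831.OE.UrT S, ρ g = 1 := fun g ⟨P, hP, h2, h3⟩ => hur P hP h2 g h3
  have hcong : ∀ g i j, (p : A) ^ m ∣ ((ρ g : Matrix (Fin n) (Fin n) A) - 1) i j := by
    intro g i j
    rw [← Ideal.mem_span_singleton]
    refine TH831.NA.cong_of_inertia hcts (Ideal.span {(p : A) ^ m}) (fun P hP τ hτ => ?_) g i j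
    by_cases hSP : ∃ l ∈ S, (l : 𝓞 (AlgebraicClosure ℚ)) ∈ P
    · exact fun i j => Ideal.mem_span_singleton.2 (hI P hP hSP τ hτ i j)
    · intro i j
      have h1 : ρ τ = 1 := hur P hP (fun l hl hlP => hSP ⟨l, hl, hlP⟩) τ hτ
      have h2 : ((ρ τ : Matrix (Fin n) (Fin n) A) - 1) i j ∈ Ideal.span {(p : A) ^ m} := by
        rw [h1, Units.val_one, sub_self]
        exact Ideal.zero_mem _
      exact h2
  have hcong' : ∀ g, ∃ α : Matrix (Fin n) (Fin n) A,
      (ρ g : Matrix (Fin n) (Fin n) A) = 1 + ((p : A) ^ m) • α := by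
    intro g
    choose b hb using hcong g
    refine ⟨Matrix.of b, ?_⟩
    rw [← sub_eq_iff_eq_add']
    ext i j
    rw [hb, Matrix.smul_apply, Matrix.of_apply, smul_eq_mul]
  have htor := TH831.NA.entries_tor hpA hm hS hχ hNo hcts hur' hcong'
  refine ⟨?_, fun hreg g => ?_⟩
  · obtain ⟨d⟩ := TH831.NA.exists_dt S (fun l hl => ⟨(hS l hl).1, (hS l hl).2.1⟩) χ hχ
    exact TH831.NA.fin_image hpA hm d hcts hur' hcong' htor
  · have hregk : ∀ (k : ℕ) (a : A), (p : A) ^ (m + k) * a = 0 → (p : A) ^ m * a = 0 := by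
      intro k
      induction k with
      | zero => exact fun a h => h
      | succ k ih =>
        intro a h
        have h1 : (p : A) ^ (m + 1) * ((p : A) ^ k * a) = 0 := by
          rw [← h]
          ring
        have h2 := hreg _ h1
        apply ih
        rw [pow_add, mul_assoc]
        exact h2
    apply Units.ext
    rw [Units.val_one, ← sub_eq_zero]
    ext i j
    obtain ⟨b, hb⟩ := hcong g i j
    obtain ⟨k, hk⟩ := htor g i j
    have hk' : (p : A) ^ k * ((ρ g : Matrix (Fin n) (Fin n) A) - 1) i j = 0 := hk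
    rw [Matrix.zero_apply, hb]
    rw [hb, ← mul_assoc, ← pow_add, add_comm] at hk'
    exact hregk k b hk'

end Pool.Agent.Results.MP_924d78_nt.AllDimensions
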