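import Pool.Agent.TH831.OE.Zt19

/-!
# Two-dimensional tame representations over Noetherian local rings

Let `S` be a finite set of primes different from the odd prime `p`. Let `A` be any Noetherian local
ring with finite residue field of characteristic `p`, with its adic topology, for example any
complete Noetherian local ring with such a residue field. Let `ρ : Gal(ℚbar/ℚ) → GL_2(A)` be
continuous, unramified outside `S` (so also at `p`) and unipotent modulo the maximal ideal. Under
explicit conditions on the power residue relations between the primes in `S` we show that `ρ` has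
finite image modulo the nilradical of `A` (so `ρ` has finite image if `A` is reduced). If `p` is not
a zero divisor in `A`, and the inertia groups at the primes congruent to `1` modulo `p` act
unipotently, then `ρ` is even trivial, under other conditions, and here `A` need not be reduced.
There are no conditions on the dimension, the characteristic or the ramification of `A`, nor on the
powers of `p` dividing `l - 1`, `l ∈ S`. For example, if `p = 3` and `7, 13, 31, 61` are the members
of `S` congruent to `1` modulo `3`, then `ρ` has finite image for all regular local rings `A` such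
that `3` is not zero in `A` and `-1` is not a square in the residue field of `A`.

The proof uses that `A` has enough points in discrete valuation rings.
-/

set_option autoImplicit false

open NumberField Matrix IsLocalRing

namespace Pool.Agent.Results.MP_924d78_nt.NoetherianCoefficients

/-- `ρ` is unramified at all primes that do not lie above a prime number in `S` (in particular at
the primes above `p`, if `p` is not in `S`). -/
def UnramifiedOutside {A : Type} [CommRing A] (S : Finset ℕ)
    (ρ : Gal(AlgebraicClosure ℚ/ℚ) →* GL (Fin 2) A) : Prop :=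
  ∀ P : Ideal (𝓞 (AlgebraicClosure ℚ)), P.IsMaximal →
    (∀ l ∈ S, (l : 𝓞 (AlgebraicClosure ℚ)) ∉ P) →
      ∀ τ : Gal(AlgebraicClosure ℚ/ℚ), (∀ x : 𝓞 (AlgebraicClosure ℚ), τ • x - x ∈ P) → ρ τ = 1

/-- Every `ρ g` is unipotent modulo the maximal ideal: some power of `ρ g - 1` has all entries in
the maximal ideal. -/
def ResiduallyUnipotent {A : Type} [CommRing A] [IsLocalRing A]
    (ρ : Gal(AlgebraicClosure ℚ/ℚ) →* GL (Fin 2) A) : Prop :=
  ∀ g, ∃ M : ℕ, ∀ i j, (((ρ g : Matrix (Fin 2) (Fin 2) A) - 1) ^ M) i j ∈ maximalIdeal A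

/-- The members of `S` congruent to `1` modulo `p`. -/
def Tame (p : ℕ) (S : Finset ℕ) : Finset ℕ := S.filter fun l => p ∣ l - 1

/-- The inertia groups at the primes above the members of `Tame p S` act unipotently. -/
def UnipotentInertia {A : Type} [CommRing A] (p : ℕ) (S : Finset ℕ)
    (ρ : Gal(AlgebraicClosure ℚ/ℚ) →* GL (Fin 2) A) : Prop :=
  ∀ l ∈ Tame p S, ∀ P : Ideal (𝓞 (AlgebraicClosure ℚ)), P.IsMaximal →
    (l : 𝓞 (AlgebraicClosure ℚ)) ∈ P → ∀ τ : Gal(AlgebraicClosure ℚ/ℚ),
      (∀ x : 𝓞 (AlgebraicClosure ℚ), τ • x - x ∈ P) →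
        ((ρ τ : Matrix (Fin 2) (Fin 2) A) - 1) ^ 2 = 0

/-- The linking number of the distinct primes `q` and `j`, with respect to a homomorphism
`χ : (ℤ/j)ˣ → ℤ/p`, as an element of a field `K` of characteristic `p`: the value of `χ` at the
class of `q` (and `0` if `j` divides `q`). -/
noncomputable def linking (K : Type) [Field K] {p : ℕ} (j q : ℕ)
    (χ : (ZMod j)ˣ →* Multiplicative (ZMod p)) : K :=
  open Classical in if h : Nat.Coprime q j then
    ((Multiplicative.toAdd (χ (ZMod.unitOfCoprime q h))).val : K) else 0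

/-- Characters of `Gal(ℚbar/ℚ)` with values in `K` unramified outside `S` are given by vectors
`(x_l)`, where `l` runs through `Tame p S`; the value at a Frobenius element at `l` is
`∑ λ_lj x_j` up to a multiple of `x_l`. The condition says: there are no two nonzero characters
`x`, `y` such that each of them is trivial on the decomposition groups at all primes at which the
other one is ramified. -/
def NoPair (K : Type) [Field K] (p : ℕ) (S : Finset ℕ)
    (χ : ∀ j : ℕ, (ZMod j)ˣ →* Multiplicative (ZMod p)) : Prop :=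
  ∀ x y : ℕ → K, (∀ l ∈ Tame p S, x l * y l = 0) →
    (∀ l ∈ Tame p S, x l * ∑ j ∈ Tame p S, linking K j l (χ j) * y j = 0) →
    (∀ l ∈ Tame p S, y l * ∑ j ∈ Tame p S, linking K j l (χ j) * x j = 0) →
    (∀ l ∈ Tame p S, x l = 0) ∨ (∀ l ∈ Tame p S, y l = 0)

/-- Any two characters `x`, `y` such that `x_l y(Frob_l) = y_l x(Frob_l)` for all `l` in `Tame p S`
(this is the vanishing of the cup product) are linearly dependent. -/
def NoPlane (K : Type) [Field K] (p : ℕ) (S : Finset ℕ)
    (χ : ∀ j : ℕ, (ZMod j)ˣ →* Multiplicative (ZMod p)) : Prop :=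
  ∀ x y : ℕ → K,
    (∀ l ∈ Tame p S, x l * ∑ j ∈ Tame p S, linking K j l (χ j) * y j =
      y l * ∑ j ∈ Tame p S, linking K j l (χ j) * x j) →
    ∃ c d : K, (c ≠ 0 ∨ d ≠ 0) ∧ ∀ l ∈ Tame p S, c * x l = d * y l

/-- Whenever `T_l`, `l` in `Tame p S`, are two by two matrices over `K` with `T_l ^ 2 = 0`, with
`T_l = 0` if `p ^ r` does not divide `l - 1`, and with
`[∑ λ_lj T_j, T_l] = ((l - 1) / p ^ r) T_l` otherwise, then all `T_l` kill a common nonzero
vector. -/
def NoTuple (K : Type) [Field K] (p r : ℕ) (S : Finset ℕ)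
    (χ : ∀ j : ℕ, (ZMod j)ˣ →* Multiplicative (ZMod p)) : Prop :=
  ∀ T : ℕ → Matrix (Fin 2) (Fin 2) K, (∀ l ∈ Tame p S, T l * T l = 0) →
    (∀ l ∈ Tame p S, ¬ p ^ r ∣ l - 1 → T l = 0) →
    (∀ l ∈ Tame p S, p ^ r ∣ l - 1 →
      (∑ j ∈ Tame p S, linking K j l (χ j) • T j) * T l -
        T l * (∑ j ∈ Tame p S, linking K j l (χ j) • T j) =
          (((l - 1) / p ^ r : ℕ) : K) • T l) →
    ∃ w : Fin 2 → K, w ≠ 0 ∧ ∀ l ∈ Tame p S, T l *ᵥ w = 0

/-- `P K` holds for every finite extension `K` of the residue field of `A`; if `A` is regular, this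
is only required for the residue field itself. -/
def Residual (A : Type) [CommRing A] [IsLocalRing A] (P : (K : Type) → [Field K] → Prop) : Prop :=
  ∀ (K : Type) [Field K] [Algebra (ResidueField A) K], Finite K →
    (IsRegularLocalRing A → Function.Surjective (algebraMap (ResidueField A) K)) → P K

/-- There are at most three primes in `S` congruent to `1` modulo `p`; for any two of them, `k` and
`l`, one of `χ_k(l)`, `χ_l(k)` is not zero; and for any three of them one of `χ_l(j)`, `χ_l(k)` is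
not zero. -/
def AtMostThree (p : ℕ) [Fact p.Prime] (S : Finset ℕ)
    (χ : ∀ j : ℕ, (ZMod j)ˣ →* Multiplicative (ZMod p)) : Prop :=
  (Tame p S).card ≤ 3 ∧
    (∀ k ∈ Tame p S, ∀ l ∈ Tame p S, k ≠ l →
      linking (ZMod p) k l (χ k) ≠ 0 ∨ linking (ZMod p) l k (χ l) ≠ 0) ∧
    (∀ j ∈ Tame p S, ∀ k ∈ Tame p S, ∀ l ∈ Tame p S, j ≠ k → j ≠ l → k ≠ l →
      linking (ZMod p) l j (χ l) ≠ 0 ∨ linking (ZMod p) l k (χ l) ≠ 0)

/-- If there are three primes in `Tame p S`, then for some order `j, k, l` of them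
`χ_l(k) (j - 1) / q + χ_l(j) (k - 1) / q` is not zero, where `q` is a power of `p` dividing
`j - 1`, `k - 1` and `l - 1`. -/
def Generic (p : ℕ) [Fact p.Prime] (S : Finset ℕ)
    (χ : ∀ j : ℕ, (ZMod j)ˣ →* Multiplicative (ZMod p)) : Prop :=
  (Tame p S).card = 3 → ∃ r : ℕ, (∀ l ∈ Tame p S, p ^ r ∣ l - 1) ∧
    ∃ j ∈ Tame p S, ∃ k ∈ Tame p S, ∃ l ∈ Tame p S, j ≠ k ∧ j ≠ l ∧ k ≠ l ∧
      (((j - 1) / p ^ r : ℕ) : ZMod p) * linking (ZMod p) l k (χ l) +
        (((k - 1) / p ^ r : ℕ) : ZMod p) * linking (ZMod p) l j (χ l) ≠ 0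

/-- For three different primes `j`, `k`, `l` in `Tame p S`, the products
`χ_k(j) χ_l(k) χ_j(l)` and `χ_l(j) χ_k(l) χ_j(k)` are different. -/
def Nonsingular (p : ℕ) [Fact p.Prime] (S : Finset ℕ)
    (χ : ∀ j : ℕ, (ZMod j)ˣ →* Multiplicative (ZMod p)) : Prop :=
  ∀ j ∈ Tame p S, ∀ k ∈ Tame p S, ∀ l ∈ Tame p S, j ≠ k → j ≠ l → k ≠ l →
    linking (ZMod p) k j (χ k) * linking (ZMod p) l k (χ l) * linking (ZMod p) j l (χ j) ≠
      linking (ZMod p) l j (χ l) * linking (ZMod p) k l (χ k) * linking (ZMod p) j k (χ j)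

/-- `ρ` has finite image modulo the nilradical of `A`, and finite image if `A` is reduced. -/
def FiniteModNilradical {A : Type} [CommRing A]
    (ρ : Gal(AlgebraicClosure ℚ/ℚ) →* GL (Fin 2) A) : Prop :=
  (Set.range fun g => Matrix.GeneralLinearGroup.map (Ideal.Quotient.mk (nilradical A))
    (ρ g)).Finite ∧ (IsReduced A → (Set.range ρ).Finite)

/-! ### Translation -/

theorem linking_eq {K : Type} [Field K] {p : ℕ} [hp : Fact p.Prime] [CharP K p] {j q : ℕ}
    (χ : (ZMod j)ˣ →* Multiplicative (ZMod p)) (x : (ZMod j)ˣ) (hx : (x : ZMod j) = (q : ZMod j)) :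
    linking K j q χ = ZMod.castHom (dvd_refl p) K (Multiplicative.toAdd (χ x)) := by
  have : NeZero p := ⟨hp.out.ne_zero⟩
  have h : Nat.Coprime q j := by
    rw [← ZMod.isUnit_iff_coprime, ← hx]
    exact x.isUnit
  unfold linking
  rw [dif_pos h, ZMod.castHom_apply, ZMod.natCast_val]
  congr 3
  exact Units.ext (by rw [hx]; rfl)

theorem linking_cast {K : Type} [Field K] {p : ℕ} [hp : Fact p.Prime] [CharP K p] {j q : ℕ}
    (χ : (ZMod j)ˣ →* Multiplicative (ZMod p)) :
    linking K j q χ = ZMod.castHom (dvd_refl p) K (linking (ZMod p) j q χ) := by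
  unfold linking
  split_ifs with h
  · rw [map_natCast]
  · rw [map_zero]

section
variable {p : ℕ} [hp : Fact p.Prime] {S : Finset ℕ} {K : Type} [Field K] [CharP K p]
  {χ : ∀ j : ℕ, (ZMod j)ˣ →* Multiplicative (ZMod p)}

theorem pair_of (h : AtMostThree p S χ) : NoPair K p S χ := by
  have hinj : Function.Injective (ZMod.castHom (dvd_refl p) K) := RingHom.injective _
  obtain ⟨hcard, hpair, hcol⟩ := h
  intro x y a1 a2 a3
  refine TH831.OE.h0_three (lam := fun l j => linking K j l (χ j)) hcard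
    (fun k hk l hl hkl => ?_) (fun j hj k hk l hl n1 n2 n3 => ?_) x y a1 a2 a3
  · show linking K k l (χ k) ≠ 0 ∨ linking K l k (χ l) ≠ 0
    rw [linking_cast (K := K) (j := k) (q := l), linking_cast (K := K) (j := l) (q := k), Ne, Ne,
      map_eq_zero_iff _ hinj, map_eq_zero_iff _ hinj]
    exact hpair k hk l hl hkl
  · show linking K l j (χ l) ≠ 0 ∨ linking K l k (χ l) ≠ 0
    rw [linking_cast (K := K) (j := l) (q := j), linking_cast (K := K) (j := l) (q := k), Ne, Ne,
      map_eq_zero_iff _ hinj, map_eq_zero_iff _ hinj]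
    exact hcol j hj k hk l hl n1 n2 n3

theorem tuple_of (hp2 : p ≠ 2) (hS : ∀ l ∈ S, l.Prime) (h : AtMostThree p S χ) (r : ℕ)
    (hr : r = 0 ∨ Generic p S χ) : NoTuple K p r S χ := by
  have hinj : Function.Injective (ZMod.castHom (dvd_refl p) K) := RingHom.injective _
  obtain ⟨hcard, hpair, hcol⟩ := h
  have hpκ : ∀ n : ℕ, (n : K) = 0 ↔ p ∣ n := fun n => CharP.cast_eq_zero_iff K p n
  have h2κ : (2 : K) ≠ 0 := by
    intro h
    have h4 : ((2 : ℕ) : K) = 0 := by exact_mod_cast h
    have := Nat.le_of_dvd two_pos ((hpκ 2).1 h4)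
    have := hp.out.two_le
    omega
  refine TH831.OE.nt_three (lam := fun l j => linking K j l (χ j)) hp.out h2κ hpκ
    (fun l hl => ⟨hS l (Finset.mem_filter.1 hl).1, (Finset.mem_filter.1 hl).2⟩) hcard
    (fun k hk l hl hkl => ?_) (fun j hj k hk l hl n1 n2 n3 => ?_) r ?_
  · show linking K k l (χ k) ≠ 0 ∨ linking K l k (χ l) ≠ 0
    rw [linking_cast (K := K) (j := k) (q := l), linking_cast (K := K) (j := l) (q := k), Ne, Ne,
      map_eq_zero_iff _ hinj, map_eq_zero_iff _ hinj]
    exact hpair k hk l hl hkl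
  · show linking K l j (χ l) ≠ 0 ∨ linking K l k (χ l) ≠ 0
    rw [linking_cast (K := K) (j := l) (q := j), linking_cast (K := K) (j := l) (q := k), Ne, Ne,
      map_eq_zero_iff _ hinj, map_eq_zero_iff _ hinj]
    exact hcol j hj k hk l hl n1 n2 n3
  · rcases hr with hr | hr
    · exact Or.inl hr
    · right
      intro h3
      obtain ⟨r0, hr0, j, hj, k, hk, l, hl, n1, n2, n3, h5⟩ := hr h3
      refine ⟨r0, hr0, j, hj, k, hk, l, hl, n1, n2, n3, ?_⟩
      show (((j - 1) / p ^ r0 : ℕ) : K) * linking K l k (χ l) +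
        (((k - 1) / p ^ r0 : ℕ) : K) * linking K l j (χ l) ≠ 0
      rw [linking_cast (K := K) (j := l) (q := k), linking_cast (K := K) (j := l) (q := j)]
      intro h6
      apply h5
      apply hinj
      rw [map_add, map_mul, map_mul, map_natCast, map_natCast, map_zero]
      exact h6

theorem plane_of (h : AtMostThree p S χ) (hN : Nonsingular p S χ) : NoPlane K p S χ := by
  have hinj : Function.Injective (ZMod.castHom (dvd_refl p) K) := RingHom.injective _
  obtain ⟨hcard, hpair, hcol⟩ := h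
  show TH831.OE.NI K (Tame p S) (fun l j => linking K j l (χ j))
  have hcases : (Tame p S).card = 0 ∨ (Tame p S).card = 1 ∨ (Tame p S).card = 2 ∨
      (Tame p S).card = 3 := by omega
  rcases hcases with h0 | h1 | h2 | h3
  · rw [Finset.card_eq_zero.1 h0]
    intro x y _
    exact ⟨1, 0, Or.inl one_ne_zero, fun l hl => absurd hl (Finset.notMem_empty l)⟩
  · obtain ⟨l, hl⟩ := Finset.card_eq_one.1 h1
    rw [hl]
    exact TH831.OE.ni_single l _
  · obtain ⟨k, l, hkl, hT⟩ := Finset.card_eq_two.1 h2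
    have hk : k ∈ Tame p S := by rw [hT]; simp
    have hl : l ∈ Tame p S := by rw [hT]; simp
    rw [hT]
    refine TH831.OE.ni_pair hkl ?_
    show linking K l k (χ l) ≠ 0 ∨ linking K k l (χ k) ≠ 0
    rw [linking_cast (K := K) (j := k) (q := l), linking_cast (K := K) (j := l) (q := k), Ne, Ne,
      map_eq_zero_iff _ hinj, map_eq_zero_iff _ hinj]
    exact (hpair k hk l hl hkl).symm
  · obtain ⟨j, k, l, hjk, hjl, hkl, hT⟩ := Finset.card_eq_three.1 h3
    have hj : j ∈ Tame p S := by rw [hT]; simp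
    have hk : k ∈ Tame p S := by rw [hT]; simp
    have hl : l ∈ Tame p S := by rw [hT]; simp
    rw [hT]
    refine TH831.OE.ni_triple hjk hjl hkl ?_
    show linking K k j (χ k) * linking K l k (χ l) * linking K j l (χ j) ≠
      linking K l j (χ l) * linking K k l (χ k) * linking K j k (χ j)
    rw [linking_cast (K := K) (j := k) (q := j), linking_cast (K := K) (j := l) (q := k),
      linking_cast (K := K) (j := j) (q := l), linking_cast (K := K) (j := l) (q := j),
      linking_cast (K := K) (j := k) (q := l), linking_cast (K := K) (j := j) (q := k),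
      ← map_mul, ← map_mul, ← map_mul, ← map_mul]
    exact fun h => hN j hj k hk l hl hjk hjl hkl (hinj h)

end

/-- points of `A` in discrete valuation rings -/
theorem points {p : ℕ} {A : Type} [CommRing A] [IsLocalRing A] [IsNoetherianRing A]
    (hfin : Finite (ResidueField A)) (hpA : (p : A) ∈ maximalIdeal A)
    (hnf : nilradical A ≠ maximalIdeal A) {a : A} (ha : ¬ IsNilpotent a) :
    ∃ (O : Type) (_ : CommRing O) (_ : IsDomain O) (_ : IsDiscreteValuationRing O)
      (φ : A →+* O), IsLocalHom φ ∧ φ a ≠ 0 ∧ Finite (ResidueField O) ∧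
        (p : O) ∈ maximalIdeal O ∧
        ((∀ a : A, IsNilpotent ((p : A) * a) → IsNilpotent a) → (p : O) ≠ 0) ∧
        (IsRegularLocalRing A → Function.Surjective φ) := by
  classical
  -- a suitable multiple
  obtain ⟨b, hbn, hbm, hba, hbp⟩ : ∃ b : A, ¬ IsNilpotent b ∧ b ∈ maximalIdeal A ∧ a ∣ b ∧
      ((∀ a : A, IsNilpotent ((p : A) * a) → IsNilpotent a) → (p : A) ∣ b) := by
    by_cases h : ∀ a : A, IsNilpotent ((p : A) * a) → IsNilpotent a
    · exact ⟨p * a, fun h0 => ha (h a h0), Ideal.mul_mem_right _ _ hpA, dvd_mul_left _ _,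
        fun _ => dvd_mul_right _ _⟩
    · by_cases hu : IsUnit a
      · have hm : ¬ maximalIdeal A ≤ nilradical A := fun h0 =>
          hnf (le_antisymm (le_maximalIdeal (by
            rw [Ne, Ideal.eq_top_iff_one, mem_nilradical]
            exact not_isNilpotent_one)) h0)
        obtain ⟨c, hc, hc0⟩ := SetLike.not_le_iff_exists.1 hm
        exact ⟨c, fun h1 => hc0 (mem_nilradical.2 h1), hc, hu.dvd, fun h1 => absurd h1 h⟩
      · exact ⟨a, ha, (mem_maximalIdeal _).2 hu, dvd_rfl, fun h1 => absurd h1 h⟩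
  have key : ∃ (O : Type) (_ : CommRing O) (_ : IsDomain O) (_ : IsDiscreteValuationRing O)
      (φ : A →+* O), IsLocalHom φ ∧ φ b ≠ 0 ∧ Finite (ResidueField O) ∧
        (IsRegularLocalRing A → Function.Surjective φ) := by
    by_cases hreg : IsRegularLocalRing A
    · have hdom : IsDomain A := (TH831.OE.reg_points A).1
      have hnF : ¬ IsField A := fun hF => hnf (by
        rw [IsLocalRing.isField_iff_maximalIdeal_eq.1 hF, nilradical_eq_bot_iff]
        infer_instance)
      obtain ⟨O, i1, i2, i3, φ, h1, h2⟩ := (TH831.OE.reg_points A).2 hnF b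
        (fun h0 => hbn (h0 ▸ IsNilpotent.zero))
      have hloc : IsLocalHom φ := IsLocalHom.of_surjective φ h1
      refine ⟨O, i1, i2, i3, φ, hloc, h2, ?_, fun _ => h1⟩
      exact Finite.of_surjective (ResidueField.map φ) (TH831.OE.res_surj h1)
    · obtain ⟨O, i1, i2, i3, φ, h1, h2, h3⟩ := TH831.OE.exists_point hfin hbn hbm
      exact ⟨O, i1, i2, i3, φ, h1, h2, h3, fun h => absurd h hreg⟩
  obtain ⟨O, i1, i2, i3, φ, h1, h2, h3, h4⟩ := key
  refine ⟨O, i1, i2, i3, φ, h1, ?_, h3, ?_, fun h => ?_, h4⟩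
  · obtain ⟨c, hc⟩ := hba
    intro h0
    rw [hc, map_mul, h0, zero_mul] at h2
    exact h2 rfl
  · have := TH831.OE.map_max φ hpA
    rwa [map_natCast] at this
  · obtain ⟨c, hc⟩ := hbp h
    intro h0
    rw [hc, map_mul, map_natCast, h0, zero_mul] at h2
    exact h2 rfl

/-- The theorem. -/
theorem result (p : ℕ) [Fact p.Prime] (hp2 : p ≠ 2) (S : Finset ℕ)
    (hS : ∀ l ∈ S, l.Prime ∧ l ≠ p)
    (A : Type) [CommRing A] [IsLocalRing A] [IsNoetherianRing A]
    [TopologicalSpace A] (hA : IsAdic (maximalIdeal A)) (hfin : Finite (ResidueField A))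
    (hpA : (p : A) ∈ maximalIdeal A)
    (ρ : Gal(AlgebraicClosure ℚ/ℚ) →* GL (Fin 2) A) (hρ : Continuous ρ)
    (hur : UnramifiedOutside S ρ) (hres : ResiduallyUnipotent ρ)
    (χ : ∀ j : ℕ, (ZMod j)ˣ →* Multiplicative (ZMod p)) (hχ : ∀ l ∈ Tame p S, ∃ x, χ l x ≠ 1) :
    (IsNilpotent (p : A) ∨ (AtMostThree p S χ ∧ Generic p S χ ∧ Nonsingular p S χ) ∨
        Residual A (fun K _ => NoPlane K p S χ ∧ ∀ r : ℕ, r ≠ 0 → NoTuple K p r S χ) →
      (∀ a : A, IsNilpotent ((p : A) * a) → IsNilpotent a) ∨ AtMostThree p S χ ∨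
        Residual A (fun K _ => NoPair K p S χ ∧ NoTuple K p 0 S χ) →
      FiniteModNilradical ρ) ∧
    (p = 3 → Tame p S = {7, 13, 31, 61} → IsRegularLocalRing A → (p : A) ≠ 0 →
      ¬ IsSquare (-1 : ResidueField A) → (Set.range ρ).Finite) ∧
    ((∀ a : A, (p : A) * a = 0 → a = 0) → (AtMostThree p S χ ∧ Generic p S χ) ∨
        Residual A (fun K _ => NoPair K p S χ ∧ ∀ r : ℕ, NoTuple K p r S χ) →
      UnipotentInertia p S ρ ∨
        (IsDomain A ∧ ∀ M : Matrix (Fin 2) (Fin 2) A, M ^ p = 1 → M = 1) → ∀ g, ρ g = 1) := by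
  classical
  have hp : p.Prime := Fact.out
  have hmem : ∀ l ∈ Tame p S, l ∈ S ∧ p ∣ l - 1 := fun l hl => Finset.mem_filter.1 hl
  have hS1 : ∀ l ∈ Tame p S, l.Prime ∧ p ∣ l - 1 := fun l hl =>
    ⟨(hS l (hmem l hl).1).1, (hmem l hl).2⟩
  have hcts := TH831.OE.cts_mem hA hρ
  have hur' : ∀ g ∈ TH831.OE.UrT S, ρ g = 1 := fun g ⟨P, hP, h2, h3⟩ => hur P hP h2 g h3
  have hSp : ∀ l ∈ S, l.Prime := fun l hl => (hS l hl).1
  -- the reduction modulo the nilradical
  set N : Ideal A := nilradical A with hN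
  have hNm : N ≤ maximalIdeal A := by
    rw [hN, nilradical_eq_sInf]
    exact sInf_le (maximalIdeal.isMaximal A).isPrime
  have hNne : N ≠ ⊤ := fun h =>
    (maximalIdeal.isMaximal A).ne_top (top_le_iff.1 (h ▸ hNm))
  have hnt : Nontrivial (A ⧸ N) := Ideal.Quotient.nontrivial_iff.2 hNne
  have hloc : IsLocalRing (A ⧸ N) :=
    IsLocalRing.of_surjective' _ Ideal.Quotient.mk_surjective
  set π : A →+* A ⧸ N := Ideal.Quotient.mk N with hπ
  have hπs : Function.Surjective π := Ideal.Quotient.mk_surjective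
  have hπl : IsLocalHom π := IsLocalHom.of_surjective _ hπs
  set ρ' : Gal(AlgebraicClosure ℚ/ℚ) →* GL (Fin 2) (A ⧸ N) :=
    (GeneralLinearGroup.map π).comp ρ with hρ'
  have hsub : ∀ g, (ρ' g : Matrix (Fin 2) (Fin 2) (A ⧸ N)) - 1 =
      ((ρ g : Matrix (Fin 2) (Fin 2) A) - 1).map π := by
    intro g
    rw [Matrix.map_sub π (fun a b => map_sub π a b), Matrix.map_one π (map_zero π) (map_one π)]
    rfl
  have hcts' : ∀ k : ℕ, ∀ᶠ g in nhds (1 : Gal(AlgebraicClosure ℚ/ℚ)), ∀ i j,
      ((ρ' g : Matrix (Fin 2) (Fin 2) (A ⧸ N)) - 1) i j ∈ maximalIdeal (A ⧸ N) ^ k := by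
    intro k
    filter_upwards [hcts k] with g hg i j
    rw [hsub]
    exact TH831.OE.map_max_pow π (hg i j)
  have hres' : ∀ g, ∃ M : ℕ, ∀ i j,
      (((ρ' g : Matrix (Fin 2) (Fin 2) (A ⧸ N)) - 1) ^ M) i j ∈ maximalIdeal (A ⧸ N) := by
    intro g
    obtain ⟨M, hM⟩ := hres g
    refine ⟨M, fun i j => ?_⟩
    have e1 : ((ρ' g : Matrix (Fin 2) (Fin 2) (A ⧸ N)) - 1) ^ M =
        (((ρ g : Matrix (Fin 2) (Fin 2) A) - 1) ^ M).map π := by
      rw [hsub]
      exact (map_pow π.mapMatrix _ M).symm
    rw [e1]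
    exact TH831.OE.map_max π (hM i j)
  have hur'' : ∀ g ∈ TH831.OE.UrT S, ρ' g = 1 := fun g hg => by
    show GeneralLinearGroup.map π (ρ g) = 1
    rw [hur' g hg, map_one]
  have hconc : (Set.range ρ').Finite → FiniteModNilradical ρ := by
    intro h
    refine ⟨h, fun hred => ?_⟩
    have hN0 : N = ⊥ := nilradical_eq_bot_iff.2 hred
    have hinj : Function.Injective (GeneralLinearGroup.map π : GL (Fin 2) A →* GL (Fin 2) (A ⧸ N)) := by
      rw [injective_iff_map_eq_one]
      intro M hM
      apply Units.ext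
      rw [Units.val_one, ← sub_eq_zero]
      ext i j
      have h1 : ((M : Matrix (Fin 2) (Fin 2) A) - 1).map π = 0 := by
        rw [Matrix.map_sub π (fun a b => map_sub π a b),
          Matrix.map_one π (map_zero π) (map_one π), sub_eq_zero]
        exact congrArg (fun M : GL (Fin 2) (A ⧸ N) => (M : Matrix (Fin 2) (Fin 2) (A ⧸ N))) hM
      have h2 := congrFun (congrFun h1 i) j
      rw [Matrix.map_apply, Matrix.zero_apply, hπ, Ideal.Quotient.eq_zero_iff_mem, hN0,
        Ideal.mem_bot] at h2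
      exact h2
    have h3 : Set.range ρ' = (GeneralLinearGroup.map π) '' Set.range ρ := by
      rw [← Set.range_comp]
      rfl
    rw [h3] at h
    exact (Set.finite_image_iff hinj.injOn).1 h
  -- dimension zero
  have hfield : N = maximalIdeal A → (Set.range ρ').Finite := by
    intro hF
    have hfinA : Finite (A ⧸ N) := by
      rw [hF]
      exact hfin
    have : Finite (GL (Fin 2) (A ⧸ N)) := inferInstance
    exact Set.toFinite _
  -- the conditions over the residue field of a point
  have hres0 : ∀ (P : (K : Type) → [Field K] → Prop), Residual A P →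
      ∀ (O : Type) [CommRing O] [IsDomain O] [IsDiscreteValuationRing O] (φ : A →+* O)
        [IsLocalHom φ], Finite (ResidueField O) →
        (IsRegularLocalRing A → Function.Surjective φ) → P (ResidueField O) := by
    intro P hP O _ _ _ φ _ hf hs
    let _ : Algebra (ResidueField A) (ResidueField O) := (ResidueField.map φ).toAlgebra
    exact hP (ResidueField O) hf fun h => TH831.OE.res_surj (hs h)
  -- the main case
  have main : (∀ (O : Type) [CommRing O] [IsDomain O] [IsDiscreteValuationRing O] (φ : A →+* O)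
      [IsLocalHom φ], Finite (ResidueField O) → (p : O) ∈ maximalIdeal O → (p : O) ≠ 0 →
        (IsRegularLocalRing A → Function.Surjective φ) →
        TH831.OE.Cd p S (ResidueField O)) →
      (∀ (O : Type) [CommRing O] [IsDomain O] [IsDiscreteValuationRing O] (φ : A →+* O)
      [IsLocalHom φ], Finite (ResidueField O) → (p : O) ∈ maximalIdeal O → (p : O) = 0 →
        ¬ (∀ a : A, IsNilpotent ((p : A) * a) → IsNilpotent a) →
        (IsRegularLocalRing A → Function.Surjective φ) →
        TH831.OE.Ce p S (ResidueField O)) → FiniteModNilradical ρ := by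
    intro hd he
    apply hconc
    by_cases hF : N = maximalIdeal A
    · exact hfield hF
    refine TH831.OE.fin_points hp2 S hS hcts' hres' hur'' fun a' ha' => ?_
    obtain ⟨a, rfl⟩ := hπs a'
    have ha : ¬ IsNilpotent a := fun h => ha' (Ideal.Quotient.eq_zero_iff_mem.2
      (mem_nilradical.2 h))
    obtain ⟨O, i1, i2, i3, φ, h1, h2, h3, h4, h5, h6⟩ := points hfin hpA hF ha
    have hker : ∀ a ∈ N, φ a = 0 := fun a ha => ((mem_nilradical.1 ha).map φ).eq_zero
    refine ⟨O, i1, i2, i3, Ideal.Quotient.lift N φ hker, ⟨fun b hb => ?_⟩, ?_, h3, h4, ?_⟩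
    · obtain ⟨b, rfl⟩ := hπs b
      rw [hπ, Ideal.Quotient.lift_mk] at hb
      exact (isUnit_of_map_unit φ b hb).map π
    · rw [hπ, Ideal.Quotient.lift_mk]
      exact h2
    · by_cases h0 : (p : O) = 0
      · exact Or.inr ⟨h0, he O φ h3 h4 h0 (fun h7 => h5 h7 h0) h6⟩
      · exact Or.inl ⟨h0, hd O φ h3 h4 h0 h6⟩
  -- from the conditions to the data
  have hlam : ∀ (K : Type) [Field K] [CharP K p], ∀ l ∈ S, p ∣ l - 1 → ∀ j ∈ S, p ∣ j - 1 →
      j ≠ l → ∀ x : (ZMod j)ˣ, (x : ZMod j) = (l : ZMod j) →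
      linking K j l (χ j) = ZMod.castHom (dvd_refl p) K (Multiplicative.toAdd (χ j x)) :=
    fun K _ _ l _ _ j _ _ _ x hx => linking_eq (χ j) x hx
  have hχ' : ∀ l ∈ S, p ∣ l - 1 → ∃ x, χ l x ≠ 1 := fun l hl hpl =>
    hχ l (Finset.mem_filter.2 ⟨hl, hpl⟩)
  refine ⟨fun h0 h1 => main ?_ ?_, ?_, ?_⟩
  · intro O _ _ _ φ _ hf hpm hp0 hs
    have hchar : CharP (ResidueField O) p := TH831.OE.charP_res hp hpm
    have h2 : NoPlane (ResidueField O) p S χ ∧
        ∀ r : ℕ, r ≠ 0 → NoTuple (ResidueField O) p r S χ := by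
      rcases h0 with h | ⟨a1, a2, a3⟩ | h
      · exfalso
        apply hp0
        have := (h.map φ).eq_zero
        rwa [map_natCast] at this
      · exact ⟨plane_of a1 a3, fun r _ => tuple_of hp2 hSp a1 r (Or.inr a2)⟩
      · exact hres0 _ h O φ hf hs
    exact ⟨χ, ZMod.castHom (dvd_refl p) (ResidueField O),
      fun l j => linking (ResidueField O) j l (χ j), hχ', hlam (ResidueField O), h2.1, h2.2⟩
  · intro O _ _ _ φ _ hf hpm hp0 hnr hs
    have hchar : CharP (ResidueField O) p := TH831.OE.charP_res hp hpm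
    have h2 : NoPair (ResidueField O) p S χ ∧ NoTuple (ResidueField O) p 0 S χ := by
      rcases h1 with h | h | h
      · exact absurd h hnr
      · exact ⟨pair_of h, tuple_of hp2 hSp h 0 (Or.inl rfl)⟩
      · exact hres0 _ h O φ hf hs
    exact ⟨χ, ZMod.castHom (dvd_refl p) (ResidueField O),
      fun l j => linking (ResidueField O) j l (χ j), hχ', hlam (ResidueField O),
      TH831.OE.h0_of fun x y a1 a2 a3 => h2.1 x y a1 a2 a3, h2.2⟩
  · -- the example
    intro h1 hT hreg hpA0 hm
    subst h1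
    have hdom : IsDomain A := (TH831.OE.reg_points A).1
    have hpr : ∀ a : A, IsNilpotent (((3 : ℕ) : A) * a) → IsNilpotent a := fun a ha => by
      rw [((mul_eq_zero.1 ha.eq_zero).resolve_left hpA0)]
      exact IsNilpotent.zero
    refine (main ?_ fun O _ _ _ φ _ hf hpm hp0 hnr hs => absurd hpr hnr).2 inferInstance
    intro O _ _ _ φ _ hf hpm hp0 hs
    have hchar : CharP (ResidueField O) 3 := TH831.OE.charP_res hp hpm
    have hpκ := TH831.OE.natCast_zero_iff hp hpm
    have hsurj := TH831.OE.res_surj (hs hreg)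
    have hm' : ¬ IsSquare (-1 : ResidueField O) := by
      rintro ⟨z, hz⟩
      obtain ⟨y, rfl⟩ := hsurj z
      apply hm
      refine ⟨y, ?_⟩
      apply RingHom.injective (ResidueField.map φ)
      rw [map_neg, map_one, map_mul]
      exact hz
    choose χ' hχ4 using TH831.OE.exists_chi4
    have h3 : (3 : ResidueField O) = 0 := by
      have := (hpκ 3).2 dvd_rfl
      exact_mod_cast this
    have htab : TH831.OE.Tab (fun l j => linking (ResidueField O) j l (χ' j)) := by
      have hoff : ∀ l ∈ ({7, 13, 31, 61} : Finset ℕ), ∀ j ∈ ({7, 13, 31, 61} : Finset ℕ),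
          l ≠ j → linking (ResidueField O) j l (χ' j) =
            ZMod.castHom (dvd_refl 3) (ResidueField O) (TH831.OE.tab l j) := by
        intro l hl j hj hlj
        have hcop : Nat.Coprime l j := by
          rw [← hT] at hl hj
          exact (Nat.coprime_primes (hS1 l hl).1 (hS1 j hj).1).2 hlj
        rw [linking_eq (χ' j) (ZMod.unitOfCoprime l hcop) (ZMod.coe_unitOfCoprime l hcop),
          (hχ4 j).2 hj l hl hlj _ (ZMod.coe_unitOfCoprime l hcop)]
      have hdiag : ∀ l ∈ ({7, 13, 31, 61} : Finset ℕ),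
          linking (ResidueField O) l l (χ' l) = 0 := by
        intro l hl
        unfold linking
        rw [dif_neg]
        rw [Nat.coprime_self]
        rw [← hT] at hl
        exact (hS1 l hl).1.ne_one
      have c0 : ZMod.castHom (dvd_refl 3) (ResidueField O) 0 = 0 := map_zero _
      have c1 : ZMod.castHom (dvd_refl 3) (ResidueField O) 1 = 1 := map_one _
      have c2 : ZMod.castHom (dvd_refl 3) (ResidueField O) 2 = 2 := map_ofNat _ 2
      refine ⟨hdiag 7 (by decide), ?_, ?_, ?_, ?_, hdiag 13 (by decide), ?_, ?_, ?_, ?_,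
        hdiag 31 (by decide), ?_, ?_, ?_, ?_, hdiag 61 (by decide)⟩
      · exact (hoff 7 (by decide) 13 (by decide) (by decide)).trans c2
      · exact (hoff 7 (by decide) 31 (by decide) (by decide)).trans c1
      · exact (hoff 7 (by decide) 61 (by decide) (by decide)).trans c1
      · exact (hoff 13 (by decide) 7 (by decide) (by decide)).trans c0
      · exact (hoff 13 (by decide) 31 (by decide) (by decide)).trans c2
      · exact (hoff 13 (by decide) 61 (by decide) (by decide)).trans c1
      · exact (hoff 31 (by decide) 7 (by decide) (by decide)).trans c1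
      · exact (hoff 31 (by decide) 13 (by decide) (by decide)).trans c0
      · exact (hoff 31 (by decide) 61 (by decide) (by decide)).trans c2
      · exact (hoff 61 (by decide) 7 (by decide) (by decide)).trans c2
      · exact (hoff 61 (by decide) 13 (by decide) (by decide)).trans c2
      · exact (hoff 61 (by decide) 31 (by decide) (by decide)).trans c0
    refine ⟨χ', ZMod.castHom (dvd_refl 3) (ResidueField O),
      fun l j => linking (ResidueField O) j l (χ' j), fun l hl hpl => (hχ4 l).1 ?_,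
      fun l _ _ j _ _ _ x hx => linking_eq (χ' j) x hx, ?_, fun r hr => ?_⟩
    · rw [← hT]
      exact Finset.mem_filter.2 ⟨hl, hpl⟩
    · have := TH831.OE.ni_ex h3 hm' htab
      rw [← hT] at this
      exact this
    · have := TH831.OE.nt_ex h3 htab hr
      rw [← hT] at this
      exact this
  · -- unipotent inertia
    intro hpr hX hU
    have hprk : ∀ (n : ℕ) (a : A), (p : A) ^ n * a = 0 → a = 0 := by
      intro n
      induction n with
      | zero => intro a h; rwa [pow_zero, one_mul] at h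
      | succ n ih =>
        intro a h
        apply hpr
        apply ih
        rwa [← mul_assoc, ← pow_succ]
    have hpr' : ∀ a : A, IsNilpotent ((p : A) * a) → IsNilpotent a := by
      rintro a ⟨n, hn⟩
      rw [mul_pow] at hn
      exact ⟨n, hprk n _ hn⟩
    have hnF : N ≠ maximalIdeal A := by
      intro hF
      rw [← hF, hN, mem_nilradical] at hpA
      have h1 := hpr' 1 (by rwa [mul_one])
      exact not_isNilpotent_one h1
    have hU' : ∀ l ∈ S, p ∣ l - 1 → ∀ P : Ideal (𝓞 (AlgebraicClosure ℚ)), P.IsMaximal →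
        (l : 𝓞 (AlgebraicClosure ℚ)) ∈ P → ∀ τ : Gal(AlgebraicClosure ℚ/ℚ),
          (∀ x : 𝓞 (AlgebraicClosure ℚ), τ • x - x ∈ P) →
          ((ρ τ : Matrix (Fin 2) (Fin 2) A) - 1) * ((ρ τ : Matrix (Fin 2) (Fin 2) A) - 1) = 0 := by
      intro l hl hpl P hP hlP τ hτ
      rcases hU with h | ⟨hdom, hnt⟩
      · have h3 := h l (Finset.mem_filter.2 ⟨hl, hpl⟩) P hP hlP τ hτ
        rwa [pow_two] at h3
      · refine TH831.OE.unip_points hp2 hcts hres (fun a ha => ?_) hnt (hS l hl).1
          (Ne.symm (hS l hl).2) hpl hP hlP hτ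
        obtain ⟨O, i1, i2, i3, φ, h1, h2, h3, h4, h5, h6⟩ := points hfin hpA hnF
          (a := a) (fun h => ha h.eq_zero)
        exact ⟨O, i1, i2, i3, φ, h1, h2, h4⟩
    refine TH831.OE.nil_lift hp2 hS hpA hpr hcts hres hur' fun g i j => ?_
    rw [mem_nilradical]
    by_contra hne
    obtain ⟨O, i1, i2, i3, φ, h1, h2, h3, h4, h5, h6⟩ := points hfin hpA hnF hne
    have hp0 := h5 hpr'
    have hchar : CharP (ResidueField O) p := TH831.OE.charP_res hp h4
    have i4 : CharZero O := TH831.OE.charZero_of hp0 h4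
    have h7 : NoPair (ResidueField O) p S χ ∧ ∀ r : ℕ, NoTuple (ResidueField O) p r S χ := by
      rcases hX with ⟨a1, a2⟩ | h
      · exact ⟨pair_of a1, fun r => tuple_of hp2 hSp a1 r (Or.inr a2)⟩
      · exact hres0 _ h O φ h3 h6
    have h8 := TH831.OE.triv_point hp2 S hS hcts hres hur' hU' φ h3 h4
      (χ := χ) (ι := ZMod.castHom (dvd_refl p) (ResidueField O))
      (lam := fun l j => linking (ResidueField O) j l (χ j)) hχ' (hlam (ResidueField O))
      (TH831.OE.h0_of fun x y a1 a2 a3 => h7.1 x y a1 a2 a3) h7.2 g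
    apply h2
    have h9 : ((ρ g : Matrix (Fin 2) (Fin 2) A) - 1).map φ = 0 := by
      rw [Matrix.map_sub φ (fun a b => map_sub φ a b), Matrix.map_one φ (map_zero φ) (map_one φ),
        sub_eq_zero]
      exact congrArg (fun M : GL (Fin 2) O => (M : Matrix (Fin 2) (Fin 2) O)) h8
    exact congrFun (congrFun h9 i) j

end Pool.Agent.Results.MP_924d78_nt.NoetherianCoefficients
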